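import Pool.Agent.REV.StmtsA2

/-!
# REV, row CRC: the substitution `x = r c`
-/

set_option autoImplicit false

namespace Pool.Agent.REV.H8

open Pool.Agent.REV Set MeasureTheory

theorem crc : CrcStmt := by
  intro n f c hc hc1
  have hc0 : c ≠ 0 := hc.ne'
  constructor
  · have h := intervalIntegral.mul_integral_comp_mul_right (a := 0) (b := 1)
      (f := fun x : ℝ => (1 - x ^ 2 / c ^ 2) ^ (((n : ℝ) - 2) / 2) * f x) (c := c)
    rw [zero_mul, one_mul] at h
    rw [← h]
    unfold RA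
    congr 1
    apply intervalIntegral.integral_congr
    intro r _
    show (1 - r ^ 2) ^ (((n : ℝ) - 2) / 2) * f (r * c) =
      (1 - (r * c) ^ 2 / c ^ 2) ^ (((n : ℝ) - 2) / 2) * f (r * c)
    have : (r * c) ^ 2 / c ^ 2 = r ^ 2 := by
      field_simp
    rw [this]
  · have h := intervalIntegral.mul_integral_comp_mul_right (a := 0) (b := 1)
      (f := fun x : ℝ => x ^ 2 * (1 - x ^ 2 / c ^ 2) ^ (((n : ℝ) - 4) / 2) * f x) (c := c)
    rw [zero_mul, one_mul] at h
    rw [← h]
    unfold RB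
    have h2 : c ^ 3 = c * c ^ 2 := by ring
    rw [h2, mul_assoc, ← intervalIntegral.integral_const_mul]
    congr 1
    apply intervalIntegral.integral_congr
    intro r _
    show c ^ 2 * (r ^ 2 * (1 - r ^ 2) ^ (((n : ℝ) - 4) / 2) * f (r * c)) =
      (r * c) ^ 2 * (1 - (r * c) ^ 2 / c ^ 2) ^ (((n : ℝ) - 4) / 2) * f (r * c)
    have : (r * c) ^ 2 / c ^ 2 = r ^ 2 := by
      field_simp
    rw [this]
    ring

end Pool.Agent.REV.H8
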